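import Pool.Agent.H79.BarAlg
import Pool.Agent.H79.BarPT

/-!
# A polynomial-time algorithm for the minimum size of a load-bounded decomposition of a tree into
unit bar visibility trees
-/

namespace Pool.Agent.Results.MP_3433f0_lc.PolyTimeMinSize

open Pool.Agent.H79.Bar

/-- There is a function computed by a deterministic Turing machine in polynomial time that maps
every tree `T`, given by its number of vertices and its edge list, to `m(T)` in unary notation,
where `m(T)` is the minimum size of a decomposition of `T` into unit bar visibility trees such that
every vertex lies in at most `ub(T)` of the pieces; and such decompositions exist. -/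
theorem result : ∃ f ∈ Pool.Agent.PPS.FP, ∀ (n : ℕ) (E : List (ℕ × ℕ)),
    (∀ e ∈ E, e.1 < n ∧ e.2 < n) → (graph n E).IsTree →
      f (input n E) = List.replicate (minSize (graph n E)) true ∧
      ∃ D : Fin (minSize (graph n E)) → (graph n E).Subgraph,
        IsDecomp (graph n E) D ∧ ∀ v, load D v ≤ ub (graph n E) := by
  refine ⟨algo, algo_mem_FP, fun n E hE hT => ⟨?_, ?_⟩⟩
  · rw [algo_input, ans_spec (symE_ok hE) (by rw [graph_symE]; exact hT), graph_symE]
  · exact exists_minDecomp hT.isAcyclic

end Pool.Agent.Results.MP_3433f0_lc.PolyTimeMinSize
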